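import Mathlib

/-!
# Dedekind finiteness is a closed condition on closed ideals of `ℓ¹(S)`

`S` is the free monoid on countably many generators and `A = ℓ¹(S)` with the convolution
product.  The space of closed two-sided ideals of `A` carries the Wijsman topology.
We show that the set of proper closed ideals `K` with `A / K` Dedekind finite is closed and
that it is not open.
-/

set_option autoImplicit false

open scoped ENNReal Topology Classical

noncomputable section

namespace Pool.Agent.Results.MP_332c3b_lc.DedekindFiniteClosed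

/-! ## The convolution algebra `ℓ¹(M)` of a monoid -/

/-- The Banach space `ℓ¹(M)` of absolutely summable complex families indexed by `M`. -/
abbrev L1 (M : Type) : Type := lp (fun _ : M => ℂ) 1

namespace L1

variable {M N : Type}

/-- The coefficient `f_w` of `f = ∑ f_w w`. -/
def coeff (f : L1 M) (w : M) : ℂ := (show lp (fun _ : M => ℂ) 1 from f) w

lemma coeff_add (f g : L1 M) (w : M) : (f + g).coeff w = f.coeff w + g.coeff w := rfl
lemma coeff_smul (c : ℂ) (f : L1 M) (w : M) : (c • f).coeff w = c * f.coeff w := rfl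
lemma coeff_sub (f g : L1 M) (w : M) : (f - g).coeff w = f.coeff w - g.coeff w := rfl
lemma coeff_neg (f : L1 M) (w : M) : (-f).coeff w = - f.coeff w := rfl
lemma coeff_zero (w : M) : (0 : L1 M).coeff w = 0 := rfl

lemma ext' {f g : L1 M} (h : ∀ w, f.coeff w = g.coeff w) : f = g := lp.ext (funext h)

lemma summable_norm (f : L1 M) : Summable (fun w => ‖f.coeff w‖) := by
  have := (lp.memℓp (show lp (fun _ : M => ℂ) 1 from f)).summable (by simp)
  simp only [ENNReal.toReal_one, Real.rpow_one] at this
  exact this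

lemma norm_eq (f : L1 M) : ‖f‖ = ∑' w, ‖f.coeff w‖ := by
  have := lp.norm_eq_tsum_rpow (p := 1) (by simp) (show lp (fun _ : M => ℂ) 1 from f)
  simp only [ENNReal.toReal_one, Real.rpow_one, div_one] at this
  exact this

/-- Build an element of `ℓ¹(M)` from a family with summable norms. -/
def mk (f : M → ℂ) (hf : Summable fun w => ‖f w‖) : L1 M :=
  ⟨f, memℓp_gen (by simpa using hf)⟩

lemma coeff_mk (f : M → ℂ) (hf : Summable fun w => ‖f w‖) (w : M) :
    (mk f hf).coeff w = f w := rfl

/-- The basis vector of an element of `M`. -/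
def single (w : M) : L1 M := lp.single 1 w 1

lemma norm_single (w : M) : ‖single w‖ = 1 := by
  have := lp.norm_single (E := fun _ : M => ℂ) (p := 1) (by simp) w (1:ℂ)
  rw [norm_one] at this
  exact this

lemma coeff_single (w v : M) : (single w).coeff v = if v = w then 1 else 0 := by
  have := lp.single_apply (E := fun _ : M => ℂ) 1 w (1:ℂ) v
  show (lp.single 1 w (1:ℂ) : lp (fun _ : M => ℂ) 1) v = _
  rw [this]
  simp [Pi.single_apply]

lemma coeff_single_self (w : M) : (single w).coeff w = 1 := by simp [coeff_single]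

lemma single_injective : Function.Injective (single : M → L1 M) := by
  intro u v h
  have h1 := congrArg (fun f => L1.coeff f u) h
  simp only [coeff_single_self, coeff_single] at h1
  by_contra hne
  rw [if_neg hne] at h1
  exact one_ne_zero h1

lemma hasSum_single (f : L1 M) : HasSum (fun w => f.coeff w • single w) f := by
  have := lp.hasSum_single (E := fun _ : M => ℂ) (p := 1) (by simp)
    (show lp (fun _ : M => ℂ) 1 from f)
  have h2 : ∀ w, lp.single (E := fun _ : M => ℂ) 1 w
      ((show lp (fun _ : M => ℂ) 1 from f) w) = f.coeff w • single w := by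
    intro w
    have h2 := lp.single_smul (E := fun _ : M => ℂ) (𝕜 := ℂ) 1 w (f.coeff w) (1:ℂ)
    simp only [smul_eq_mul, mul_one] at h2
    exact h2
  have h3 : (fun i : M => lp.single (E := fun _ : M => ℂ) 1 i
      ((show lp (fun _ : M => ℂ) 1 from f) i)) = fun w => f.coeff w • single w := funext h2
  rw [h3] at this
  exact this

/-- The coefficient as a continuous linear functional. -/
def coeffL (w : M) : L1 M →L[ℂ] ℂ :=
  LinearMap.mkContinuous
    { toFun := fun f => f.coeff w
      map_add' := fun f g => rfl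
      map_smul' := fun c f => rfl } 1 (fun f => by
        rw [one_mul]
        exact lp.norm_apply_le_norm (p := 1) (by simp) (show lp (fun _ : M => ℂ) 1 from f) w)

lemma coeffL_apply (w : M) (f : L1 M) : coeffL w f = f.coeff w := rfl

section lift

variable {F : Type*} [NormedAddCommGroup F] [NormedSpace ℂ F]

lemma hom_ext {T U : L1 M →L[ℂ] F} (h : ∀ w, T (single w) = U (single w)) : T = U := by
  ext f
  have h1 := (f.hasSum_single).mapL T
  have h2 := (f.hasSum_single).mapL U
  simp only [map_smul, h] at h1 h2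
  exact h1.unique h2

variable [CompleteSpace F]

lemma summable_lift (φ : M → F) (C : ℝ) (hφ : ∀ w, ‖φ w‖ ≤ C) (f : L1 M) :
    Summable (fun w => f.coeff w • φ w) := by
  refine Summable.of_norm_bounded (g := fun w => ‖f.coeff w‖ * C) (f.summable_norm.mul_right C) ?_
  intro w
  rw [norm_smul]
  exact mul_le_mul_of_nonneg_left (hφ w) (norm_nonneg _)

/-- The bounded linear extension of a bounded family `φ : M → F`. -/
def lift (φ : M → F) (C : ℝ) (hφ : ∀ w, ‖φ w‖ ≤ C) : L1 M →L[ℂ] F :=
  LinearMap.mkContinuous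
    { toFun := fun f => ∑' w, f.coeff w • φ w
      map_add' := fun f g => by
        rw [← (summable_lift φ C hφ f).tsum_add (summable_lift φ C hφ g)]
        congr 1; ext w; rw [coeff_add, add_smul]
      map_smul' := fun c f => by
        simp only [RingHom.id_apply]
        rw [← (summable_lift φ C hφ f).tsum_const_smul c]
        congr 1; ext w; rw [coeff_smul, mul_smul] } C (fun f => by
      show ‖∑' w, f.coeff w • φ w‖ ≤ C * ‖f‖
      rw [norm_eq, mul_comm, ← tsum_mul_right]
      refine tsum_of_norm_bounded (f.summable_norm.mul_right C).hasSum ?_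
      intro w
      rw [norm_smul]
      exact mul_le_mul_of_nonneg_left (hφ w) (norm_nonneg _))

lemma lift_apply (φ : M → F) (C : ℝ) (hφ : ∀ w, ‖φ w‖ ≤ C) (f : L1 M) :
    lift φ C hφ f = ∑' w, f.coeff w • φ w := rfl

lemma lift_single (φ : M → F) (C : ℝ) (hφ : ∀ w, ‖φ w‖ ≤ C) (w : M) :
    lift φ C hφ (single w) = φ w := by
  rw [lift_apply, tsum_eq_single w]
  · rw [coeff_single_self, one_smul]
  · intro v hv; rw [coeff_single, if_neg hv, zero_smul]

lemma norm_lift_le (φ : M → F) (C : ℝ) (hC : 0 ≤ C) (hφ : ∀ w, ‖φ w‖ ≤ C) :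
    ‖lift φ C hφ‖ ≤ C :=
  LinearMap.mkContinuous_norm_le _ hC _

end lift

/-! ### Convolution -/

variable [Monoid M] [Monoid N]

/-- Auxiliary bilinear map: the convolution. -/
def mulL : L1 M →L[ℂ] L1 M →L[ℂ] L1 M :=
  lift (fun u => lift (fun v => single (u * v)) 1 (fun _ => (norm_single _).le)) 1
    (fun _ => norm_lift_le _ 1 zero_le_one _)

lemma mulL_single_single (u v : M) : mulL (single u) (single v) = single (u * v) := by
  rw [mulL, lift_single, lift_single]

lemma norm_mulL_le (f g : L1 M) : ‖mulL f g‖ ≤ ‖f‖ * ‖g‖ := by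
  have h1 : ‖(mulL : L1 M →L[ℂ] L1 M →L[ℂ] L1 M)‖ ≤ 1 := norm_lift_le _ 1 zero_le_one _
  calc ‖mulL f g‖ ≤ ‖mulL f‖ * ‖g‖ := (mulL f).le_opNorm g
    _ ≤ (‖(mulL : L1 M →L[ℂ] L1 M →L[ℂ] L1 M)‖ * ‖f‖) * ‖g‖ := by
        gcongr; exact mulL.le_opNorm f
    _ ≤ (1 * ‖f‖) * ‖g‖ := by gcongr
    _ = ‖f‖ * ‖g‖ := by ring

lemma mulL_assoc (f g h : L1 M) : mulL (mulL f g) h = mulL f (mulL g h) := by
  have key1 : ∀ u v w : M, mulL (mulL (single u) (single v)) (single w) =
      mulL (single u) (mulL (single v) (single w)) := by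
    intro u v w
    simp only [mulL_single_single, mul_assoc]
  have key2 : ∀ (u v : M) (h : L1 M), mulL (mulL (single u) (single v)) h =
      mulL (single u) (mulL (single v) h) := by
    intro u v h
    have := hom_ext (T := mulL (mulL (single u) (single v)))
      (U := (mulL (single u)).comp (mulL (single v))) (fun w => key1 u v w)
    exact DFunLike.congr_fun this h
  have key3 : ∀ (u : M) (g h : L1 M), mulL (mulL (single u) g) h =
      mulL (single u) (mulL g h) := by
    intro u g h
    have := hom_ext (T := (mulL.flip h).comp (mulL (single u)))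
      (U := (mulL (single u)).comp (mulL.flip h)) (fun v => key2 u v h)
    exact DFunLike.congr_fun this g
  have := hom_ext (T := (mulL.flip h).comp (mulL.flip g))
      (U := mulL.flip (mulL g h)) (fun u => key3 u g h)
  exact DFunLike.congr_fun this f

lemma mulL_one_left (f : L1 M) : mulL (single 1) f = f := by
  have := hom_ext (T := mulL (single 1)) (U := ContinuousLinearMap.id ℂ (L1 M)) (fun w => by
    simp [mulL_single_single])
  exact DFunLike.congr_fun this f

lemma mulL_one_right (f : L1 M) : mulL f (single 1) = f := by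
  have := hom_ext (T := mulL.flip (single 1)) (U := ContinuousLinearMap.id ℂ (L1 M)) (fun w => by
    simp [mulL_single_single])
  exact DFunLike.congr_fun this f

omit [Monoid M] in
lemma summable_norm_prod (f g : L1 M) :
    Summable (fun p : M × M => ‖f.coeff p.1 * g.coeff p.2‖) := by
  have := f.summable_norm.mul_of_nonneg g.summable_norm (fun _ => norm_nonneg _)
    (fun _ => norm_nonneg _)
  simpa [norm_mul] using this

lemma coeff_mulL (f g : L1 M) (w : M) :
    (mulL f g).coeff w = ∑' p : {p : M × M // p.1 * p.2 = w}, f.coeff p.1.1 * g.coeff p.1.2 := by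
  have h1 : (mulL f g).coeff w = ∑' u, ∑' v, f.coeff u * (g.coeff v * (single (u * v)).coeff w) := by
    rw [mulL, lift_apply]
    have hs : Summable (fun u => f.coeff u •
        (lift (fun v => single (u * v)) 1 (fun _ => (norm_single _).le) : L1 M →L[ℂ] L1 M)) :=
      summable_lift _ 1 (fun _ => norm_lift_le _ 1 zero_le_one _) f
    have h2 := (hs.hasSum.mapL ((ContinuousLinearMap.apply ℂ (L1 M)) g))
    have h3 := h2.mapL (coeffL w)
    have h4 := h3.tsum_eq
    simp only [ContinuousLinearMap.apply_apply, coeffL_apply] at h4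
    rw [← h4]
    congr 1
    ext u
    have hs2 : Summable (fun v => g.coeff v • single (u * v)) :=
      summable_lift _ 1 (fun _ => (norm_single _).le) g
    have h5 := (hs2.hasSum.mapL (coeffL w)).tsum_eq
    simp only [coeffL_apply] at h5
    show (f.coeff u • (∑' v, g.coeff v • single (u * v))).coeff w = _
    rw [coeff_smul, ← h5, ← tsum_mul_left]
    rfl
  rw [h1]
  have h6 : Summable (fun p : M × M => f.coeff p.1 * (g.coeff p.2 * (single (p.1 * p.2)).coeff w)) := by
    refine Summable.of_norm_bounded (summable_norm_prod f g) ?_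
    intro p
    rw [← mul_assoc, norm_mul _ ((single (p.1 * p.2)).coeff w), coeff_single]
    split_ifs
    · simp
    · rw [norm_zero, mul_zero]
      exact norm_nonneg _
  rw [← h6.tsum_prod' (fun u => h6.prod_factor u)]
  have h7 : (fun p : M × M => f.coeff p.1 * (g.coeff p.2 * (single (p.1 * p.2)).coeff w)) =
      Set.indicator {p : M × M | p.1 * p.2 = w} (fun p => f.coeff p.1 * g.coeff p.2) := by
    ext p
    rw [Set.indicator_apply, coeff_single]
    by_cases h : p.1 * p.2 = w
    · simp [h]
    · have h' : w ≠ p.1 * p.2 := fun e => h e.symm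
      simp [h, h']
  rw [h7, ← tsum_subtype]
  rfl

/-- The convolution product: `(f * g)_w = ∑_{uv = w} f_u g_v`. -/
instance : Mul (L1 M) :=
  ⟨fun f g => mk (fun w => ∑' p : {p : M × M // p.1 * p.2 = w}, f.coeff p.1.1 * g.coeff p.1.2)
    (by simpa only [← coeff_mulL] using (mulL f g).summable_norm)⟩

/-- The unit of `ℓ¹(M)` is the basis vector of the unit of `M`. -/
instance : One (L1 M) := ⟨single 1⟩

lemma coeff_mul (f g : L1 M) (w : M) :
    (f * g).coeff w = ∑' p : {p : M × M // p.1 * p.2 = w}, f.coeff p.1.1 * g.coeff p.1.2 := rfl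

lemma mul_eq (f g : L1 M) : f * g = mulL f g := ext' fun w => by rw [coeff_mul, coeff_mulL]

lemma one_eq : (1 : L1 M) = single 1 := rfl

instance : Ring (L1 M) :=
  { (inferInstance : AddCommGroup (L1 M)), (inferInstance : Mul (L1 M)),
    (inferInstance : One (L1 M)) with
    left_distrib := fun f g h => by simp only [mul_eq, map_add]
    right_distrib := fun f g h => by
      simp only [mul_eq, map_add, add_apply]
    zero_mul := fun f => by simp only [mul_eq, map_zero, zero_apply]
    mul_zero := fun f => by simp only [mul_eq, map_zero]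
    mul_assoc := fun f g h => by simp only [mul_eq, mulL_assoc]
    one_mul := fun f => by rw [mul_eq, one_eq, mulL_one_left]
    mul_one := fun f => by rw [mul_eq, one_eq, mulL_one_right] }

instance : NormedRing (L1 M) :=
  { (inferInstance : NormedAddCommGroup (L1 M)), (inferInstance : Ring (L1 M)) with
    dist_eq := fun f g => dist_eq_norm_neg_add f g
    norm_mul_le := fun f g => by rw [mul_eq]; exact norm_mulL_le f g }

instance : NormedAlgebra ℂ (L1 M) :=
  { Algebra.ofModule (fun c f g => by
      rw [mul_eq, mul_eq, map_smul, smul_apply]) (fun c f g => by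
      rw [mul_eq, mul_eq, map_smul]) with
    norm_smul_le := fun c f => norm_smul_le c f }

/-! ### Functoriality -/

/-- The contractive linear map `ℓ¹(M) → ℓ¹(N)` induced by a monoid homomorphism. -/
def map (φ : M →* N) : L1 M →L[ℂ] L1 N :=
  lift (fun w => single (φ w)) 1 (fun _ => (norm_single _).le)

lemma map_single (φ : M →* N) (w : M) : map φ (single w) = single (φ w) := lift_single _ _ _ _

lemma norm_map_le (φ : M →* N) (f : L1 M) : ‖map φ f‖ ≤ ‖f‖ := by
  have h := (map φ).le_of_opNorm_le (norm_lift_le (fun w => single (φ w)) 1 zero_le_one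
    (fun _ => (norm_single _).le)) f
  rwa [one_mul] at h

lemma map_mul' (φ : M →* N) (f g : L1 M) : map φ (f * g) = map φ f * map φ g := by
  have key1 : ∀ (u : M) (g : L1 M), map φ (mulL (single u) g) =
      mulL (map φ (single u)) (map φ g) := by
    intro u g
    have := hom_ext (T := (map φ).comp (mulL (single u)))
      (U := (mulL (map φ (single u))).comp (map φ)) (fun v => by
        simp only [ContinuousLinearMap.comp_apply, mulL_single_single, map_single, map_mul])
    exact DFunLike.congr_fun this g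
  have := hom_ext (T := (map φ).comp (mulL.flip g))
      (U := (mulL.flip (map φ g)).comp (map φ)) (fun u => key1 u g)
  rw [mul_eq, mul_eq]
  exact DFunLike.congr_fun this f

lemma map_one' (φ : M →* N) : map φ (1 : L1 M) = 1 := by
  rw [one_eq, map_single, map_one, one_eq]

lemma map_comp {P : Type} [Monoid P] (φ : M →* N) (ψ : N →* P) (f : L1 M) :
    map ψ (map φ f) = map (ψ.comp φ) f := by
  have := hom_ext (T := (map ψ).comp (map φ)) (U := map (ψ.comp φ)) (fun v => by
        simp only [ContinuousLinearMap.comp_apply, map_single, MonoidHom.comp_apply])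
  exact DFunLike.congr_fun this f

end L1

/-! ## Closed two-sided ideals and the Wijsman topology -/

/-- `Ideal(B)`: the closed two-sided ideals of a Banach algebra `B`. -/
structure ClosedIdeal (B : Type) [NormedRing B] where
  /-- the underlying two-sided ideal -/
  ideal : TwoSidedIdeal B
  /-- it is closed in norm -/
  closed : IsClosed (ideal : Set B)

/-- The Wijsman topology on `Ideal(B)`: the weakest topology making all the functions
`K ↦ d(x, K) = inf_{z ∈ K} ‖x - z‖`, `x ∈ B`, continuous. -/
instance (B : Type) [NormedRing B] : TopologicalSpace (ClosedIdeal B) :=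
  ⨅ x : B, TopologicalSpace.induced (fun K : ClosedIdeal B => Metric.infDist x (K.ideal : Set B))
    inferInstance

/-- `Ideal'(B)`: the subspace of proper closed ideals `K ≠ B`. -/
abbrev ProperClosedIdeal (B : Type) [NormedRing B] : Type :=
  {K : ClosedIdeal B // (K.ideal : Set B) ≠ Set.univ}

/-- The quotient algebra `B / K`. -/
abbrev Quot (B : Type) [NormedRing B] (K : ProperClosedIdeal B) : Type :=
  K.1.ideal.ringCon.Quotient

/-- The set of proper closed ideals `K` of `B` such that `B / K` is Dedekind finite, i.e.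
`a b = 1` implies `b a = 1` in `B / K`. -/
def DF (B : Type) [NormedRing B] : Set (ProperClosedIdeal B) :=
  {K | ∀ a b : Quot B K, a * b = 1 → b * a = 1}

section general

variable {B : Type} [NormedRing B]

lemma continuous_infDist (x : B) :
    Continuous (fun K : ClosedIdeal B => Metric.infDist x (K.ideal : Set B)) :=
  continuous_iff_le_induced.mpr (iInf_le _ x)

lemma mem_DF_iff (K : ProperClosedIdeal B) :
    K ∈ DF B ↔ ∀ a b : B, a * b - 1 ∈ K.1.ideal → b * a - 1 ∈ K.1.ideal := by
  have key : ∀ a b : B, ((a : Quot B K) * (b : Quot B K) = 1) ↔ a * b - 1 ∈ K.1.ideal := by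
    intro a b
    rw [← TwoSidedIdeal.rel_iff, ← RingCon.eq]
    rfl
  constructor
  · intro h a b hab
    exact (key b a).1 (h a b ((key a b).2 hab))
  · intro h a b
    induction a using Quotient.inductionOn with | _ a => ?_
    induction b using Quotient.inductionOn with | _ b => ?_
    intro hab
    exact (key b a).2 (h a b ((key a b).1 hab))

lemma closed_nonempty (K : TwoSidedIdeal B) : (K : Set B).Nonempty := ⟨0, K.zero_mem⟩

/-- **Main general fact**: Dedekind finiteness is a closed condition. -/
theorem isClosed_DF [CompleteSpace B] : IsClosed (DF B) := by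
  rw [← isOpen_compl_iff, isOpen_iff_mem_nhds]
  intro K hK
  rw [Set.mem_compl_iff, mem_DF_iff] at hK
  push Not at hK
  obtain ⟨a, b, hab, hba⟩ := hK
  -- the distance from `b a - 1` to `K` is positive
  set r := Metric.infDist (b * a - 1) (K.1.ideal : Set B) with hr
  have hrpos : 0 < r := by
    exact (K.1.closed.notMem_iff_infDist_pos (closed_nonempty K.1.ideal)).1 hba
  -- choice of `δ`
  set c := ‖b‖ * ‖a‖ + 1 with hc
  have hcpos : 0 < c := by positivity
  obtain ⟨δ, hδ0, hδ1, hδ2⟩ : ∃ δ : ℝ, 0 < δ ∧ δ ≤ 1 / 2 ∧ c * (2 * δ) ≤ r / 2 := by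
    refine ⟨min (1 / 2) (r / (4 * c)), by positivity, min_le_left _ _, ?_⟩
    calc c * (2 * min (1 / 2) (r / (4 * c))) ≤ c * (2 * (r / (4 * c))) := by
          gcongr; exact min_le_right _ _
      _ = r / 2 := by field_simp; ring
  have hcont1 : Continuous (fun K : ProperClosedIdeal B =>
      Metric.infDist (a * b - 1) (K.1.ideal : Set B)) :=
    (continuous_infDist _).comp continuous_subtype_val
  have hcont2 : Continuous (fun K : ProperClosedIdeal B =>
      Metric.infDist (b * a - 1) (K.1.ideal : Set B)) :=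
    (continuous_infDist _).comp continuous_subtype_val
  have hU1 : {K' : ProperClosedIdeal B | Metric.infDist (a * b - 1) (K'.1.ideal : Set B) < δ} ∈ 𝓝 K := by
    refine (isOpen_lt hcont1 continuous_const).mem_nhds ?_
    show Metric.infDist (a * b - 1) (K.1.ideal : Set B) < δ
    rw [Metric.infDist_zero_of_mem hab]
    exact hδ0
  have hU2 : {K' : ProperClosedIdeal B | r / 2 < Metric.infDist (b * a - 1) (K'.1.ideal : Set B)} ∈ 𝓝 K := by
    refine (isOpen_lt continuous_const hcont2).mem_nhds ?_
    show r / 2 < Metric.infDist (b * a - 1) (K.1.ideal : Set B)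
    linarith
  filter_upwards [hU1, hU2] with K' h1 h2
  rw [Set.mem_compl_iff, mem_DF_iff]
  intro hDF
  obtain ⟨z, hz, hzd⟩ := (Metric.infDist_lt_iff (closed_nonempty K'.1.ideal)).1 h1
  rw [dist_eq_norm] at hzd
  -- `w = a b - z` is invertible
  set t := 1 - (a * b - z) with ht
  have htn : ‖t‖ < δ := by
    have : t = -(a * b - 1 - z) := by rw [ht]; abel
    rw [this, norm_neg]; exact hzd
  have ht1 : ‖t‖ < 1 := by linarith
  set u : Bˣ := Units.oneSub t ht1 with hu
  have huv : (u : B) = a * b - z := by
    rw [hu, Units.val_oneSub, ht]; abel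
  have hinv : ‖(↑u⁻¹ : B) - 1‖ ≤ 2 * δ := by
    have e1 : (↑u⁻¹ : B) - 1 = ↑u⁻¹ * t := by
      have : (↑u⁻¹ : B) * (u : B) = 1 := u.inv_mul
      rw [huv] at this
      rw [ht, mul_sub, this, mul_one]
    have e2 : ‖(↑u⁻¹ : B) - 1‖ ≤ ‖(↑u⁻¹ : B)‖ * ‖t‖ := by rw [e1]; exact norm_mul_le _ _
    have e3 : (↑u⁻¹ : B) - 1 = (↑u⁻¹ - 1) * t + t := by
      rw [sub_mul, one_mul, sub_add_cancel]; exact e1
    have e4 : ‖(↑u⁻¹ : B) - 1‖ ≤ ‖(↑u⁻¹ : B) - 1‖ * ‖t‖ + ‖t‖ := by
      calc ‖(↑u⁻¹ : B) - 1‖ = ‖((↑u⁻¹ : B) - 1) * t + t‖ := by rw [← e3]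
        _ ≤ ‖((↑u⁻¹ : B) - 1) * t‖ + ‖t‖ := norm_add_le _ _
        _ ≤ _ := by gcongr; exact norm_mul_le _ _
    nlinarith [norm_nonneg ((↑u⁻¹ : B) - 1), norm_nonneg t]
  have hmem : a * (b * ↑u⁻¹) - 1 ∈ K'.1.ideal := by
    have : a * (b * ↑u⁻¹) - 1 = z * ↑u⁻¹ := by
      have h3 : (u : B) * (↑u⁻¹ : B) = 1 := u.mul_inv
      rw [huv, sub_mul] at h3
      rw [← mul_assoc, ← h3]; abel
    rw [this]
    exact K'.1.ideal.mul_mem_right _ _ hz
  have hmem2 := hDF _ _ hmem
  have hle : Metric.infDist (b * a - 1) (K'.1.ideal : Set B) ≤ c * (2 * δ) := by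
    calc Metric.infDist (b * a - 1) (K'.1.ideal : Set B) ≤ dist (b * a - 1) (b * ↑u⁻¹ * a - 1) :=
          Metric.infDist_le_dist_of_mem hmem2
      _ = ‖b * ((↑u⁻¹ : B) - 1) * a‖ := by
          rw [dist_eq_norm, ← norm_neg]; congr 1; noncomm_ring
      _ ≤ ‖b‖ * ‖(↑u⁻¹ : B) - 1‖ * ‖a‖ := (norm_mul_le _ _).trans (by
          gcongr; exact norm_mul_le _ _)
      _ ≤ ‖b‖ * (2 * δ) * ‖a‖ := by gcongr
      _ = (‖b‖ * ‖a‖) * (2 * δ) := by ring
      _ ≤ c * (2 * δ) := by
          gcongr
          rw [hc]; linarith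
  linarith

end general

/-! ## The algebra `A = ℓ¹(S)`, `S` the free monoid on `x₀, x₁, x₂, …` -/

/-- The Banach algebra `A = ℓ¹(S)`, where `S` is the free monoid on countably many generators. -/
abbrev A : Type := L1 (FreeMonoid ℕ)

/-- `A` is Dedekind finite. -/
lemma A_dedekindFinite (a b : A) (hab : a * b = 1) : b * a = 1 := by
  have hone : a.coeff 1 * b.coeff 1 = 1 := by
    have h1 : (a * b).coeff 1 = 1 := by rw [hab, L1.one_eq, L1.coeff_single_self]
    rw [L1.coeff_mul] at h1
    rw [← h1, tsum_eq_single ⟨(1, 1), one_mul 1⟩]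
    rintro ⟨⟨u, v⟩, huv⟩ hne
    exfalso
    apply hne
    have hl : (u * v).length = 0 := by rw [show u * v = 1 from huv]; rfl
    rw [FreeMonoid.length_mul] at hl
    have hu : u = 1 := FreeMonoid.length_eq_zero.1 (by omega)
    have hv : v = 1 := FreeMonoid.length_eq_zero.1 (by omega)
    subst hu hv
    rfl
  have ha1 : a.coeff 1 ≠ 0 := left_ne_zero_of_mul_eq_one hone
  set p : A := 1 - b * a with hp
  have hap : a * p = 0 := by
    rw [hp, mul_sub, mul_one, ← mul_assoc, hab, one_mul, sub_self]
  have hzero : ∀ n : ℕ, ∀ w : FreeMonoid ℕ, w.length = n → p.coeff w = 0 := by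
    intro n
    induction n using Nat.strong_induction_on with
    | _ n ih =>
      intro w hw
      have h1 : (a * p).coeff w = 0 := by rw [hap, L1.coeff_zero]
      rw [L1.coeff_mul, tsum_eq_single ⟨(1, w), one_mul w⟩] at h1
      · exact (mul_eq_zero.1 h1).resolve_left ha1
      · rintro ⟨⟨u, v⟩, huv⟩ hne
        have huv' : u * v = w := huv
        have hl : u.length + v.length = n := by rw [← FreeMonoid.length_mul, huv', hw]
        by_cases hu : u = 1
        · exfalso
          apply hne
          subst hu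
          rw [one_mul] at huv'
          subst huv'
          rfl
        · have hul : u.length ≠ 0 := fun h => hu (FreeMonoid.length_eq_zero.1 h)
          have := ih v.length (by omega) v rfl
          show a.coeff u * p.coeff v = 0
          rw [this, mul_zero]
  have hp0 : p = 0 := L1.ext' fun w => by rw [hzero _ w rfl, L1.coeff_zero]
  rw [hp, sub_eq_zero] at hp0
  exact hp0.symm

/-- The kernel of `map φ`, as a closed two-sided ideal. -/
def kerIdeal {N : Type} [Monoid N] (φ : FreeMonoid ℕ →* N) : ClosedIdeal A where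
  ideal := TwoSidedIdeal.mk' {x : A | L1.map φ x = 0} (map_zero _)
    (fun {x y} hx hy => by
      rw [Set.mem_ofPred_eq] at *
      rw [map_add, hx, hy, add_zero])
    (fun {x} hx => by
      rw [Set.mem_ofPred_eq] at *
      rw [map_neg, hx, neg_zero])
    (fun {x y} hy => by
      rw [Set.mem_ofPred_eq] at *
      rw [L1.map_mul', hy, mul_zero])
    (fun {x y} hx => by
      rw [Set.mem_ofPred_eq] at *
      rw [L1.map_mul', hx, zero_mul])
  closed := by
    rw [TwoSidedIdeal.coe_mk']
    exact isClosed_singleton.preimage (L1.map φ).continuous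

lemma mem_kerIdeal {N : Type} [Monoid N] (φ : FreeMonoid ℕ →* N) (x : A) :
    x ∈ (kerIdeal φ).ideal ↔ L1.map φ x = 0 := by
  unfold kerIdeal
  rw [TwoSidedIdeal.mem_mk']
  rfl

lemma one_ne_zero_L1 {N : Type} [Monoid N] : (1 : L1 N) ≠ 0 := by
  intro h
  have := congrArg (fun f => L1.coeff f 1) h
  simp only [L1.one_eq, L1.coeff_single_self, L1.coeff_zero] at this
  exact one_ne_zero this

/-- The kernel ideal as a proper closed ideal. -/
def kerProper {N : Type} [Monoid N] (φ : FreeMonoid ℕ →* N) : ProperClosedIdeal A :=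
  ⟨kerIdeal φ, fun h => by
    have : (1 : A) ∈ ((kerIdeal φ).ideal : Set A) := by rw [h]; trivial
    have h2 := (mem_kerIdeal φ 1).1 this
    rw [L1.map_one'] at h2
    exact one_ne_zero_L1 h2⟩

/-- The letters `xᵢ`, `i < n`, are fixed, and the others are sent to `1`. -/
def rho (n : ℕ) : FreeMonoid ℕ →* FreeMonoid ℕ :=
  FreeMonoid.lift (fun i => if i < n then FreeMonoid.of i else 1)

/-- The predecessor map. -/
def predE : Function.End ℕ := Nat.pred

/-- The successor map. -/
def succE : Function.End ℕ := Nat.succ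

/-- The predecessor and successor maps generate a copy of the bicyclic monoid. -/
def beta (n : ℕ) : FreeMonoid ℕ →* Function.End ℕ :=
  FreeMonoid.lift (fun i => if i = n then predE else if i = n + 1 then succE else 1)

/-- The homomorphism defining `K_n`. -/
def Phi (n : ℕ) : FreeMonoid ℕ →* Function.End ℕ × FreeMonoid ℕ := (beta n).prod (rho n)

lemma not_mem_DF (n : ℕ) : kerProper (Phi n) ∉ DF A := by
  rw [mem_DF_iff]
  intro h
  have hb1 : beta n (FreeMonoid.of n) = predE := by
    simp [beta]
  have hb2 : beta n (FreeMonoid.of (n+1)) = succE := by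
    simp [beta]
  have hr1 : rho n (FreeMonoid.of n) = 1 := by simp [rho]
  have hr2 : rho n (FreeMonoid.of (n+1)) = 1 := by simp [rho]
  have h1 := h (L1.single (FreeMonoid.of n)) (L1.single (FreeMonoid.of (n+1)))
  rw [show (kerProper (Phi n)).1 = kerIdeal (Phi n) from rfl] at h1
  rw [mem_kerIdeal, mem_kerIdeal, map_sub, map_sub, L1.map_mul', L1.map_mul', L1.map_single,
    L1.map_single, L1.map_one', sub_eq_zero, sub_eq_zero] at h1
  have e1 : Phi n (FreeMonoid.of n) = (predE, 1) := by
    rw [Phi, MonoidHom.prod_apply, hb1, hr1]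
  have e2 : Phi n (FreeMonoid.of (n+1)) = (succE, 1) := by
    rw [Phi, MonoidHom.prod_apply, hb2, hr2]
  rw [e1, e2, L1.mul_eq, L1.mul_eq, L1.mulL_single_single, L1.mulL_single_single, L1.one_eq,
    Prod.mk_mul_mk, Prod.mk_mul_mk, mul_one] at h1
  have h2 : (predE * succE) = 1 := by
    funext k; rfl
  have h3 := L1.single_injective (h1 (by rw [h2]; rfl))
  have h4 := congrArg (fun q : Function.End ℕ × FreeMonoid ℕ => q.1 (0 : ℕ)) h3
  exact absurd h4 (by decide)

lemma rho_of_le (w : FreeMonoid ℕ) : ∃ m : ℕ, ∀ n, m ≤ n → rho n w = w := by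
  induction w using FreeMonoid.inductionOn' with
  | one => exact ⟨0, fun n _ => map_one _⟩
  | of_mul x xs ih =>
    obtain ⟨m, hm⟩ := ih
    refine ⟨max m (x + 1), fun n hn => ?_⟩
    rw [map_mul, hm n (le_trans (le_max_left _ _) hn)]
    congr 1
    have : x < n := lt_of_lt_of_le (Nat.lt_succ_self x) (le_trans (le_max_right _ _) hn)
    simp [rho, this]

lemma tendsto_map_rho (x : A) :
    Filter.Tendsto (fun n => L1.map (rho n) x) Filter.atTop (𝓝 x) := by
  have h1 : ∀ n, L1.map (rho n) x = ∑' w, x.coeff w • L1.single (rho n w) := fun n => rfl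
  have h2 : x = ∑' w, x.coeff w • L1.single w := x.hasSum_single.tsum_eq.symm
  simp only [h1]
  conv => arg 3; rw [h2]
  refine tendsto_tsum_of_dominated_convergence (bound := fun w => ‖x.coeff w‖)
    x.summable_norm ?_ ?_
  · intro w
    obtain ⟨m, hm⟩ := rho_of_le w
    refine tendsto_const_nhds.congr' ?_
    filter_upwards [Filter.eventually_ge_atTop m] with n hn
    rw [hm n hn]
  · refine Filter.Eventually.of_forall fun n w => ?_
    rw [norm_smul, L1.norm_single, mul_one]

/-- The zero ideal, as the kernel of the identity. -/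
def zeroIdeal : ProperClosedIdeal A := kerProper (MonoidHom.id _)

lemma mem_zeroIdeal (x : A) : x ∈ (zeroIdeal).1.ideal ↔ x = 0 := by
  have : L1.map (MonoidHom.id (FreeMonoid ℕ)) x = x := by
    have := L1.hom_ext (T := L1.map (MonoidHom.id (FreeMonoid ℕ)))
      (U := ContinuousLinearMap.id ℂ A) (fun w => by
        rw [L1.map_single]; rfl)
    exact DFunLike.congr_fun this x
  show x ∈ (kerIdeal (MonoidHom.id (FreeMonoid ℕ))).ideal ↔ _
  rw [mem_kerIdeal, this]

lemma zeroIdeal_mem_DF : zeroIdeal ∈ DF A := by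
  rw [mem_DF_iff]
  intro a b
  rw [mem_zeroIdeal, mem_zeroIdeal, sub_eq_zero, sub_eq_zero]
  exact A_dedekindFinite a b

lemma tendsto_zeroIdeal :
    Filter.Tendsto (fun n => kerProper (Phi n)) Filter.atTop (𝓝 zeroIdeal) := by
  rw [tendsto_subtype_rng, nhds_iInf, Filter.tendsto_iInf]
  intro x
  rw [nhds_induced, Filter.tendsto_comap_iff]
  have hz : Metric.infDist x ((zeroIdeal).1.ideal : Set A) = ‖x‖ := by
    have : ((zeroIdeal).1.ideal : Set A) = {0} := by
      ext y
      rw [SetLike.mem_coe, mem_zeroIdeal, Set.mem_singleton_iff]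
    rw [this, Metric.infDist_singleton, dist_zero_right]
  show Filter.Tendsto (fun n => Metric.infDist x ((kerProper (Phi n)).1.ideal : Set A))
    Filter.atTop (𝓝 (Metric.infDist x ((zeroIdeal).1.ideal : Set A)))
  rw [hz]
  have hlow : Filter.Tendsto (fun n => ‖L1.map (rho n) x‖) Filter.atTop (𝓝 ‖x‖) :=
    (tendsto_map_rho x).norm
  refine tendsto_of_tendsto_of_tendsto_of_le_of_le hlow tendsto_const_nhds ?_ ?_
  · intro n
    refine (Metric.le_infDist (closed_nonempty _)).2 ?_
    intro k hk
    have hk' : L1.map (Phi n) k = 0 := (mem_kerIdeal (Phi n) k).1 hk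
    have hcomp : (MonoidHom.snd (Function.End ℕ) (FreeMonoid ℕ)).comp (Phi n) = rho n := by
      rw [Phi]; exact MonoidHom.snd_comp_prod _ _
    have h3 : L1.map (rho n) k = 0 := by
      rw [← hcomp, ← L1.map_comp, hk', map_zero]
    calc ‖L1.map (rho n) x‖ = ‖L1.map (rho n) (x - k)‖ := by rw [map_sub, h3, sub_zero]
      _ ≤ ‖x - k‖ := L1.norm_map_le _ _
      _ = dist x k := (dist_eq_norm _ _).symm
  · intro n
    have := Metric.infDist_le_dist_of_mem (x := x)
      (show (0 : A) ∈ ((kerProper (Phi n)).1.ideal : Set A) from TwoSidedIdeal.zero_mem _)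
    rwa [dist_zero_right] at this

/-- **Answer to Q1.** In the space `Ideal'(A)` of proper closed two-sided ideals of `A = ℓ¹(S)`
with the Wijsman topology, the set `DF` of ideals with Dedekind finite quotient is closed, and it
is not open.  So `DF` is `Π⁰₁` (in particular `Σ⁰₂`), and this Borel class is optimal. -/
theorem result : IsClosed (DF A) ∧ ¬ IsOpen (DF A) := by
  refine ⟨isClosed_DF, fun hopen => ?_⟩
  have h1 := tendsto_zeroIdeal.eventually (hopen.mem_nhds zeroIdeal_mem_DF)
  obtain ⟨n, hn⟩ := h1.exists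
  exact not_mem_DF n hn

end Pool.Agent.Results.MP_332c3b_lc.DedekindFiniteClosed
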